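import Mathlib
import Pool.Agent.H439Z.Pot

set_option autoImplicit false

namespace Pool.Agent.Results.MP_102303_co.APotReal9

/-- A real positive semidefinite 9 by 9 matrix whose Schur power matrix has an eigenvalue
strictly larger than the permanent: permanent-on-top fails for real matrices of order 9. -/
theorem result : ∃ A : Matrix (Fin 9) (Fin 9) ℝ, A.PosSemidef ∧ ∃ μ : ℝ, A.permanent < μ ∧
    Module.End.HasEigenvalue
      (Matrix.toLin' (Matrix.of fun σ τ : Equiv.Perm (Fin 9) => ∏ i, A (σ i) (τ i))) μ := by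
  refine ⟨Pool.Agent.H439Z.Pot.A, Pool.Agent.H439Z.Pot.A_psd, 16438848, ?_, ?_⟩
  · rw [Pool.Agent.H439Z.Pot.per_A]; norm_num
  · refine Module.End.hasEigenvalue_of_hasEigenvector (x := Pool.Agent.H439Z.Pot.x) ⟨?_, ?_⟩
    · rw [Module.End.mem_eigenspace_iff]
      funext σ
      rw [Matrix.toLin'_apply]
      exact Pool.Agent.H439Z.Pot.eig σ
    · intro h
      exact Pool.Agent.H439Z.Pot.x_one (congrFun h 1)

end Pool.Agent.Results.MP_102303_co.APotReal9
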